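import Pool.Agent.U682.TIG.Comp

/-!
# The converse direction, and the structure of the identity component
-/

set_option autoImplicit false

namespace Pool.Agent.U682.TIG

open Topology Filter

/-- A finite group has no proper subgroup which meets every conjugacy class. -/
theorem jordan {Q : Type*} [Group Q] [Finite Q] (H : Subgroup Q)
    (h : ∀ x : Q, ∃ y : Q, y * x * y⁻¹ ∈ H) : H = ⊤ := by
  classical
  have : Fintype Q := Fintype.ofFinite Q
  have : Fintype (Q ⧸ H) := Fintype.ofFinite _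
  have : Fintype (Quotient (MulAction.orbitRel Q (Q ⧸ H))) := Fintype.ofFinite _
  have : ∀ a : Q, Fintype (MulAction.fixedBy (Q ⧸ H) a) := fun a => Fintype.ofFinite _
  have h1 := MulAction.sum_card_fixedBy_eq_card_orbits_mul_card_group Q (Q ⧸ H)
  have horb : Fintype.card (Quotient (MulAction.orbitRel Q (Q ⧸ H))) = 1 := by
    have : Subsingleton (Quotient (MulAction.orbitRel Q (Q ⧸ H))) :=
      (MulAction.pretransitive_iff_subsingleton_quotient Q (Q ⧸ H)).1 inferInstance
    have : Nonempty (Quotient (MulAction.orbitRel Q (Q ⧸ H))) := ⟨Quotient.mk'' (1 : Q)⟩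
    exact Fintype.card_eq_one_iff_nonempty_unique.2 ⟨Unique.mk' _⟩
  rw [horb, one_mul] at h1
  have hpos : ∀ a : Q, 1 ≤ Fintype.card (MulAction.fixedBy (Q ⧸ H) a) := by
    intro a
    obtain ⟨y, hy⟩ := h a
    have : Nonempty (MulAction.fixedBy (Q ⧸ H) a) := by
      refine ⟨⟨((y⁻¹ : Q) : Q ⧸ H), ?_⟩⟩
      rw [MulAction.mem_fixedBy]
      show ((a * y⁻¹ : Q) : Q ⧸ H) = ((y⁻¹ : Q) : Q ⧸ H)
      rw [eq_comm, QuotientGroup.eq]
      have : (y⁻¹)⁻¹ * (a * y⁻¹) = y * a * y⁻¹ := by group
      rw [this]; exact hy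
    exact Fintype.card_pos
  have hone : Fintype.card (MulAction.fixedBy (Q ⧸ H) (1 : Q)) = Fintype.card (Q ⧸ H) := by
    apply Fintype.card_congr
    exact (Equiv.setCongr (by ext x; simp)).trans (Equiv.Set.univ _)
  have h2 : Fintype.card (Q ⧸ H) ≤ 1 := by
    have h3 : ∑ a : Q, Fintype.card (MulAction.fixedBy (Q ⧸ H) a) =
        Fintype.card (Q ⧸ H) + ∑ a ∈ Finset.univ.erase (1 : Q),
          Fintype.card (MulAction.fixedBy (Q ⧸ H) a) := by
      rw [← Finset.add_sum_erase Finset.univ _ (Finset.mem_univ (1 : Q)), hone]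
    have h4 : (Finset.univ.erase (1 : Q)).card ≤ ∑ a ∈ Finset.univ.erase (1 : Q),
          Fintype.card (MulAction.fixedBy (Q ⧸ H) a) := by
      rw [Finset.card_eq_sum_ones]
      exact Finset.sum_le_sum fun a _ => hpos a
    rw [Finset.card_erase_of_mem (Finset.mem_univ _), Finset.card_univ] at h4
    have h5 : 0 < Fintype.card Q := Fintype.card_pos
    omega
  have h3 : H.index ≤ 1 := by
    rw [Subgroup.index, Nat.card_eq_fintype_card]
    exact h2
  have h4 : H.index ≠ 0 := Subgroup.index_ne_zero_of_finite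
  exact Subgroup.index_eq_one.1 (by omega)

/-- profinite groups -/
theorem tig_profinite {Q : Type*} [Group Q] [TopologicalSpace Q] [IsTopologicalGroup Q]
    [CompactSpace Q] [TotallyDisconnectedSpace Q] : TIG Q := by
  intro H hH hdom
  let C : ClosedSubgroup Q := ⟨H, hH⟩
  have h1 := ProfiniteGrp.closedSubgroup_eq_sInf_open C
  have h2 : H = sInf {N : Subgroup Q | IsOpen (N : Set Q) ∧ H ≤ N} := h1
  rw [h2]
  rw [eq_top_iff]
  refine le_sInf ?_
  rintro N ⟨hN, hHN⟩
  have hfi : Finite (Q ⧸ N) := Subgroup.quotient_finite_of_isOpen N hN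
  have : N.FiniteIndex := Subgroup.finiteIndex_of_finite_quotient
  have : Finite (Q ⧸ N.normalCore) := inferInstance
  have h3 : (N.map (QuotientGroup.mk' N.normalCore)) = ⊤ := by
    apply jordan
    intro x
    obtain ⟨a, rfl⟩ := QuotientGroup.mk'_surjective N.normalCore x
    obtain ⟨y, hy⟩ := hdom a
    refine ⟨QuotientGroup.mk' N.normalCore y, ?_⟩
    rw [← map_mul, ← map_inv, ← map_mul]
    exact Subgroup.mem_map_of_mem _ (hHN hy)
  have h4 : N = (N.map (QuotientGroup.mk' N.normalCore)).comap (QuotientGroup.mk' N.normalCore) := by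
    rw [Subgroup.comap_map_eq, QuotientGroup.ker_mk', sup_eq_left.2 N.normalCore_le]
  rw [h4, h3, Subgroup.comap_top]

/-- (connected abelian)-by-profinite groups -/
theorem tig_of_ext {G : Type*} [Group G] [TopologicalSpace G] [IsTopologicalGroup G]
    [CompactSpace G] (N : Subgroup G) (hN : N.Normal)
    (hab : ∀ a ∈ N, ∀ b ∈ N, a * b = b * a) (htd : TotallyDisconnectedSpace (G ⧸ N)) : TIG G := by
  intro H hH hdom
  have hNcl : IsClosed (N : Set G) := by
    have h1 : IsClosed ({1} : Set (G ⧸ N)) := isClosed_singleton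
    have h2 : (N : Set G) = (QuotientGroup.mk : G → G ⧸ N) ⁻¹' {1} := by
      ext x
      simp
    rw [h2]
    exact h1.preimage QuotientGroup.continuous_mk
  have hmapc : IsClosed ((H.map (QuotientGroup.mk' N) : Subgroup (G ⧸ N)) : Set (G ⧸ N)) := by
    rw [Subgroup.coe_map]
    exact (hH.isCompact.image (QuotientGroup.continuous_mk (N := N))).isClosed
  have hmap : H.map (QuotientGroup.mk' N) = ⊤ := by
    apply tig_profinite _ hmapc
    intro x
    obtain ⟨a, rfl⟩ := QuotientGroup.mk'_surjective N x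
    obtain ⟨y, hy⟩ := hdom a
    refine ⟨QuotientGroup.mk' N y, ?_⟩
    rw [← map_mul, ← map_inv, ← map_mul]
    exact Subgroup.mem_map_of_mem _ hy
  have hdec : ∀ x : G, ∃ h ∈ H, ∃ n ∈ N, x = h * n := by
    intro x
    have : QuotientGroup.mk' N x ∈ H.map (QuotientGroup.mk' N) := by rw [hmap]; trivial
    obtain ⟨h, hh, hx⟩ := this
    refine ⟨h, hh, h⁻¹ * x, ?_, by group⟩
    exact QuotientGroup.eq.1 hx
  have hNH : N ≤ H := by
    intro a ha
    obtain ⟨y, hy⟩ := hdom a
    obtain ⟨h, hh, n, hn, rfl⟩ := hdec y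
    have h1 : h * n * a * (h * n)⁻¹ = h * a * h⁻¹ := by
      have : n * a = a * n := hab n hn a ha
      calc h * n * a * (h * n)⁻¹ = h * (n * a) * n⁻¹ * h⁻¹ := by group
        _ = h * a * h⁻¹ := by rw [this]; group
    rw [h1] at hy
    have h2 : a = h⁻¹ * (h * a * h⁻¹) * h := by group
    rw [h2]
    exact H.mul_mem (H.mul_mem (H.inv_mem hh) hy) hh
  rw [eq_top_iff]
  intro x _
  obtain ⟨h, hh, n, hn, rfl⟩ := hdec x
  exact H.mul_mem hh (hNH hn)

/-- the quotient by the identity component -/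
theorem totDisc (G : Type*) [Group G] [TopologicalSpace G] [IsTopologicalGroup G]
    [CompactSpace G] [T2Space G] :
    ∃ N : Subgroup G, (N : Set G) = connectedComponent (1 : G) ∧ N.Normal ∧
      TotallyDisconnectedSpace (G ⧸ N) := by
  obtain ⟨G0, hG0⟩ : ∃ G0 : Subgroup G, G0 = Subgroup.connectedComponentOfOne G := ⟨_, rfl⟩
  have hmem : ∀ x, x ∈ G0 ↔ x ∈ connectedComponent (1 : G) := fun x => by rw [hG0]; rfl
  have hn : G0.Normal := by
    refine ⟨fun n hn g => ?_⟩
    rw [hmem] at hn ⊢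
    have hc : Continuous fun x : G => g * x * g⁻¹ := by fun_prop
    have h1 := hc.image_connectedComponent_subset 1 ⟨n, hn, rfl⟩
    simpa using h1
  refine ⟨G0, by rw [hG0]; rfl, hn, ?_⟩
  have hco : IsCoinducing (QuotientGroup.mk : G → G ⧸ G0) :=
    (QuotientGroup.isQuotientMap_mk (N := G0)).isCoinducing
  have hfib : ∀ y : G ⧸ G0, IsConnected ((QuotientGroup.mk : G → G ⧸ G0) ⁻¹' {y}) := by
    intro y
    obtain ⟨a, rfl⟩ := QuotientGroup.mk_surjective y
    have h1 : (QuotientGroup.mk : G → G ⧸ G0) ⁻¹' {(a : G ⧸ G0)} =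
        (fun x => a * x) '' connectedComponent (1 : G) := by
      ext x
      simp only [Set.mem_preimage, Set.mem_singleton_iff, Set.mem_image]
      constructor
      · intro hx
        refine ⟨a⁻¹ * x, ?_, by group⟩
        exact (hmem _).1 (QuotientGroup.eq.1 hx.symm)
      · rintro ⟨z, hz, rfl⟩
        refine (QuotientGroup.eq.2 ?_).symm
        have : a⁻¹ * (a * z) = z := by group
        rw [this]; exact (hmem _).2 hz
    rw [h1]
    exact isConnected_connectedComponent.image _ (by fun_prop)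
  rw [totallyDisconnectedSpace_iff_connectedComponent_one]
  have h1 := hco.image_connectedComponent hfib 1
  have h2 : ((1 : G) : G ⧸ G0) = 1 := rfl
  rw [h2] at h1
  rw [← h1]
  ext y
  simp only [Set.mem_image, Set.mem_singleton_iff]
  constructor
  · rintro ⟨x, hx, rfl⟩
    exact (QuotientGroup.eq_one_iff x).2 ((hmem _).2 hx)
  · rintro rfl
    exact ⟨1, mem_connectedComponent, rfl⟩

end Pool.Agent.U682.TIG
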