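import Pool.Agent.U682.TIG.LemW2
import Pool.Agent.Helper831.HQ.P_exists_regular
import Pool.Agent.Helper831.HQ.P_exists_commute
import Pool.Agent.Helper831.HQ.P_isClosed_matSet

/-!
# Maximal commutative subalgebras of the Lie algebra of a compact linear group, and automorphisms
-/

set_option autoImplicit false

namespace Pool.Agent.U682.TIG

open Matrix Module
open scoped ComplexOrder Matrix.Norms.L2Operator

variable {N : ℕ}

/-- if `w` has the largest number of eigenvalues in `S` then everything which commutes with `w`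
commutes with the elements of `S` which commute with `w` -/
theorem comm_of_max {S : Set (MN N)} (hS : LieData S) {w x y : MN N} (hw : w ∈ S) (hx : x ∈ S)
    (hxw : x * w = w * x) (hmax : ∀ z ∈ S, HQ.hqn z ≤ HQ.hqn w) (hyw : y * w = w * y) :
    x * y = y * x := by
  have hsc := HQ.hq_scalar (fun X hX Y hY => hS.add X hX Y hY) (fun r X hX => hS.smul r X hX)
    (fun X hX => hS.skew X hX) hw hx hxw hmax
  have hsym := HQ.hqL_symm (hS.skew w hw)
  have htop : (⨆ μ, End.eigenspace (HQ.hqL w) μ) = ⊤ := by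
    rw [← Submodule.orthogonal_eq_bot_iff]
    exact hsym.orthogonalComplement_iSup_eigenspaces_eq_bot
  have hc : Commute (HQ.hqL w) (HQ.hqL y) := HQ.hqL_comm hyw
  have key : ∀ v, HQ.hqL x (HQ.hqL y v) = HQ.hqL y (HQ.hqL x v) := by
    intro v
    have hv : v ∈ (⨆ μ, End.eigenspace (HQ.hqL w) μ) := by rw [htop]; trivial
    refine Submodule.iSup_induction (fun μ => End.eigenspace (HQ.hqL w) μ)
      (motive := fun v => HQ.hqL x (HQ.hqL y v) = HQ.hqL y (HQ.hqL x v)) hv ?_ ?_ ?_
    · intro a v hv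
      obtain ⟨γ, hγ⟩ := hsc a
      have h1 : HQ.hqL w v = a • v := End.mem_eigenspace_iff.1 hv
      have h2 : HQ.hqL w (HQ.hqL y v) = a • HQ.hqL y v := by
        have : HQ.hqL w (HQ.hqL y v) = HQ.hqL y (HQ.hqL w v) := by
          have := congrArg (fun T : End ℂ _ => T v) hc.eq
          exact this
        rw [this, h1, map_smul]
      rw [hγ _ h2, hγ _ h1, map_smul]
    · simp
    · intro v v' h1 h2
      rw [map_add, map_add, map_add, map_add, h1, h2]
  have h3 : (Complex.I • x) * (Complex.I • y) = (Complex.I • y) * (Complex.I • x) := by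
    apply Matrix.toEuclideanLin.injective
    apply LinearMap.ext
    intro v
    have h4 := key v
    rw [HQ.hqL_apply, HQ.hqL_apply, HQ.hqL_apply, HQ.hqL_apply] at h4
    simp only [Matrix.mulVec_mulVec] at h4
    exact h4
  simp only [smul_mul_assoc, mul_smul_comm, smul_smul, Complex.I_mul_I, neg_smul, one_smul,
    neg_inj] at h3
  exact h3

theorem exists_max {S : Set (MN N)} (hS : LieData S) :
    ∃ w ∈ S, ∀ z ∈ S, HQ.hqn z ≤ HQ.hqn w := by
  classical
  have h1 : (fun n => ∃ z ∈ S, HQ.hqn z = n) (Nat.findGreatest (fun n => ∃ z ∈ S, HQ.hqn z = n) N) :=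
    Nat.findGreatest_spec (P := fun n => ∃ z ∈ S, HQ.hqn z = n) (HQ.hqn_le 0) ⟨0, hS.zero, rfl⟩
  obtain ⟨w, hw, hwn⟩ := h1
  refine ⟨w, hw, ?_⟩
  intro z hz
  rw [hwn]
  exact Nat.le_findGreatest (HQ.hqn_le z) ⟨z, hz, rfl⟩

section grp

variable {G : Subgroup (Matrix.unitaryGroup (Fin N) ℂ)} (hG : IsClosed (HQ.matSet G))

include hG in
theorem lieData : LieData (HQ.LieSet G) := by
  obtain ⟨h0, hsmul, hadd, _, _, _, hskew⟩ := HQ.LieSet_closed_ops G hG
  exact ⟨h0, hadd, hsmul, hskew, fun x hx y hy => HQ.LieSet_bracket G hG x y hx hy⟩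

/-- the centralizer of `v` in `S` -/
def cent (S : Set (MN N)) (v : MN N) : Set (MN N) := {x | x ∈ S ∧ x * v = v * x}

theorem cent_lieData {S : Set (MN N)} (hS : LieData S) (v : MN N) : LieData (cent S v) where
  zero := ⟨hS.zero, by simp⟩
  add := by
    rintro x ⟨hx, hxv⟩ y ⟨hy, hyv⟩
    exact ⟨hS.add _ hx _ hy, by rw [add_mul, mul_add, hxv, hyv]⟩
  smul := by
    rintro r x ⟨hx, hxv⟩
    exact ⟨hS.smul _ _ hx, by rw [smul_mul_assoc, mul_smul_comm, hxv]⟩
  skew := fun x hx => hS.skew x hx.1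
  brk := by
    rintro x ⟨hx, hxv⟩ y ⟨hy, hyv⟩
    refine ⟨hS.brk _ hx _ hy, ?_⟩
    have e1 : x * y * v = v * (x * y) := by rw [mul_assoc, hyv, ← mul_assoc, hxv, mul_assoc]
    have e2 : y * x * v = v * (y * x) := by rw [mul_assoc, hxv, ← mul_assoc, hyv, mul_assoc]
    rw [sub_mul, mul_sub, e1, e2]

include hG in
/-- Every element of the group normalises the centralizer of a regular element. -/
theorem invariantCartan (g : MN N) (hg : g ∈ HQ.matSet G) : ∃ v ∈ HQ.LieSet G,
    (∀ x ∈ cent (HQ.LieSet G) v, ∀ y ∈ cent (HQ.LieSet G) v, x * y = y * x) ∧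
    (∀ x ∈ cent (HQ.LieSet G) v, g * x * star g ∈ cent (HQ.LieSet G) v) := by
  have hL := lieData hG
  obtain ⟨_, _, _, hconj, hconj', _, _⟩ := HQ.LieSet_closed_ops G hG
  obtain ⟨_, _, _, hun⟩ := HQ.matSet_basic G
  obtain ⟨hg1, hg2, _⟩ := hun g hg
  -- the fixed algebra
  have hK : LieData {x | x ∈ HQ.LieSet G ∧ g * x * star g = x} := by
    refine ⟨⟨hL.zero, by simp⟩, ?_, ?_, fun x hx => hL.skew x hx.1, ?_⟩
    · rintro x ⟨hx, hxv⟩ y ⟨hy, hyv⟩
      exact ⟨hL.add _ hx _ hy, by rw [mul_add, add_mul, hxv, hyv]⟩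
    · rintro r x ⟨hx, hxv⟩
      exact ⟨hL.smul _ _ hx, by rw [mul_smul_comm, smul_mul_assoc, hxv]⟩
    · rintro x ⟨hx, hxv⟩ y ⟨hy, hyv⟩
      refine ⟨hL.brk _ hx _ hy, ?_⟩
      have := conj_br (g := g) hg2 x y
      unfold br at this
      rw [this, hxv, hyv]
  obtain ⟨s, hs, hsmax⟩ := exists_max hK
  have hZ := cent_lieData hL s
  have hsg : g * s * star g = s := hs.2
  have hconjZ : ∀ x ∈ cent (HQ.LieSet G) s, g * x * star g ∈ cent (HQ.LieSet G) s := by
    rintro x ⟨hx, hxs⟩
    refine ⟨hconj g hg x hx, ?_⟩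
    have e1 : g * (x * s) * star g = g * (s * x) * star g := by rw [hxs]
    rw [conj_mul hg2, conj_mul hg2, hsg] at e1
    exact e1
  have hcomm := comm_of_fixed hZ hg2 hconjZ (by
    rintro x ⟨hx, hxs⟩ hxg y ⟨hy, hys⟩
    exact comm_of_max hK hs ⟨hx, hxg⟩ hxs hsmax hys)
  obtain ⟨v, hv, hvmax⟩ := exists_max hZ
  have hsZ : s ∈ cent (HQ.LieSet G) s := ⟨hs.1, rfl⟩
  have hsub : ∀ x ∈ cent (HQ.LieSet G) v, x ∈ cent (HQ.LieSet G) s := by
    rintro x ⟨hx, hxv⟩
    refine ⟨hx, ?_⟩
    exact (comm_of_max hZ hv hsZ (hcomm s hsZ v hv) hvmax hxv).symm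
  have hsub' : ∀ x ∈ cent (HQ.LieSet G) s, x ∈ cent (HQ.LieSet G) v :=
    fun x hx => ⟨hx.1, hcomm x hx v hv⟩
  refine ⟨v, hv.1, fun x hx y hy => hcomm x (hsub x hx) y (hsub y hy), fun x hx => ?_⟩
  exact hsub' _ (hconjZ x (hsub x hx))

/-- the invariant inner product -/
noncomputable def BB (N : ℕ) : MN N →ₗ[ℝ] MN N →ₗ[ℝ] ℝ :=
  LinearMap.mk₂ ℝ (fun x y : MN N => -(trace (x * y)).re)
    (by
      intro x x' y
      rw [add_mul, trace_add, Complex.add_re]
      ring)
    (by
      intro c x y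
      rw [smul_mul_assoc, trace_smul, Complex.real_smul, Complex.re_ofReal_mul, smul_eq_mul]
      ring)
    (by
      intro x y y'
      rw [mul_add, trace_add, Complex.add_re]
      ring)
    (by
      intro c x y
      rw [mul_smul_comm, trace_smul, Complex.real_smul, Complex.re_ofReal_mul, smul_eq_mul]
      ring)

theorem BB_apply (x y : MN N) : BB N x y = -(trace (x * y)).re := rfl

include hG in
theorem biinv : HQ.IsBiinvariant G (BB N) := by
  obtain ⟨_, _, _, hun⟩ := HQ.matSet_basic G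
  refine ⟨?_, ?_, ?_⟩
  · intro X _ Y _
    rw [BB_apply, BB_apply, trace_mul_comm]
  · intro X hX h0
    rw [BB_apply]
    have hs := (lieData hG).skew X hX
    have h1 : trace (star X * X) = -trace (X * X) := by rw [hs, neg_mul, trace_neg]
    have h2 : 0 ≤ trace (star X * X) := by
      rw [star_eq_conjTranspose]
      exact (posSemidef_conjTranspose_mul_self X).trace_nonneg
    have h3 : trace (star X * X) ≠ 0 := fun h => h0 (eq_zero_of_trace h)
    have h4 : 0 < trace (star X * X) := lt_of_le_of_ne h2 (Ne.symm h3)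
    rw [h1] at h4
    have h5 := (Complex.lt_def.1 h4).1
    simpa using h5
  · intro g hg X _ Y _
    obtain ⟨hg1, hg2, _⟩ := hun g hg
    rw [BB_apply, BB_apply, ← conj_mul hg2, trace_mul_comm, ← mul_assoc, hg2, one_mul]

/-- the normaliser condition -/
def Nrm (G : Subgroup (Matrix.unitaryGroup (Fin N) ℂ)) (w : MN N) : Set (MN N) :=
  {h | h ∈ HQ.matSet G ∧ (h * w * star h) * w = w * (h * w * star h)}

include hG in
/-- Every element of the group is conjugate into the normaliser of a given regular centralizer. -/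
theorem conj_into (hGc : IsCompact (HQ.matSet G)) (w : MN N) (hw : w ∈ HQ.LieSet G)
    (g : MN N) (hg : g ∈ HQ.matSet G) :
    ∃ k ∈ HQ.matSet G, star k * g * k ∈ Nrm G w := by
  obtain ⟨_, _, _, hconj, hconj', _, _⟩ := HQ.LieSet_closed_ops G hG
  obtain ⟨_, hmul, hstar, hun⟩ := HQ.matSet_basic G
  obtain ⟨hg1, hg2, _⟩ := hun g hg
  obtain ⟨v, hv, hcomm, hinv⟩ := invariantCartan hG g hg
  obtain ⟨k, hk, hkw⟩ := HQ.exists_commute G hGc (BB N) (biinv hG) w v hw hv
  obtain ⟨hk1, hk2, _⟩ := hun k hk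
  refine ⟨k, hk, hmul _ (hmul _ (hstar k hk) _ hg) _ hk, ?_⟩
  have h1 : k * w * star k ∈ cent (HQ.LieSet G) v := ⟨hconj k hk w hw, hkw⟩
  have h2 := hinv _ h1
  have h3 := hcomm _ h2 _ h1
  have e1 : (star k * g * k) * w * star (star k * g * k) =
      star k * (g * (k * w * star k) * star g) * k := by
    simp only [star_mul, star_star]
    noncomm_ring
  rw [e1]
  obtain ⟨a, ha⟩ : ∃ a, a = g * (k * w * star k) * star g := ⟨_, rfl⟩
  rw [← ha] at h3 ⊢
  have h4 : star k * (a * (k * w * star k)) * k = star k * ((k * w * star k) * a) * k := by rw [h3]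
  have e2 : star k * (a * (k * w * star k)) * k = star k * a * k * w * (star k * k) := by
    noncomm_ring
  have e3 : star k * ((k * w * star k) * a) * k = (star k * k) * w * (star k * a * k) := by
    noncomm_ring
  rw [e2, e3, hk2, mul_one, one_mul] at h4
  exact h4

include hG in
/-- The normaliser is a subgroup. -/
theorem nrm_mul (w : MN N) (hw : w ∈ HQ.LieSet G)
    (hcomm : ∀ x ∈ cent (HQ.LieSet G) w, ∀ y ∈ cent (HQ.LieSet G) w, x * y = y * x)
    {h k : MN N} (hh : h ∈ Nrm G w) (hk : k ∈ Nrm G w) : h * k ∈ Nrm G w := by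
  obtain ⟨_, _, _, hconj, hconj', _, _⟩ := HQ.LieSet_closed_ops G hG
  obtain ⟨_, hmul, hstar, hun⟩ := HQ.matSet_basic G
  obtain ⟨hh1, hh2, _⟩ := hun h hh.1
  refine ⟨hmul _ hh.1 _ hk.1, ?_⟩
  obtain ⟨t, ht⟩ : ∃ t, t = k * w * star k := ⟨_, rfl⟩
  have htc : t ∈ cent (HQ.LieSet G) w := ⟨by rw [ht]; exact hconj k hk.1 w hw, by rw [ht]; exact hk.2⟩
  -- `star h * w * h` commutes with `w`
  have hw' : star h * w * h ∈ cent (HQ.LieSet G) w := by
    refine ⟨hconj' h hh.1 w hw, ?_⟩
    have h4 : star h * ((h * w * star h) * w) * h = star h * (w * (h * w * star h)) * h := by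
      rw [hh.2]
    have e2 : star h * ((h * w * star h) * w) * h = (star h * h) * w * (star h * w * h) := by
      noncomm_ring
    have e3 : star h * (w * (h * w * star h)) * h = star h * w * h * w * (star h * h) := by
      noncomm_ring
    rw [e2, e3, hh2, mul_one, one_mul] at h4
    exact h4.symm
  have h5 := hcomm t htc _ hw'
  have e1 : h * k * w * star (h * k) = h * t * star h := by
    rw [ht]
    simp only [star_mul]
    noncomm_ring
  rw [e1]
  have h6 : h * (t * (star h * w * h)) * star h = h * ((star h * w * h) * t) * star h := by rw [h5]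
  have e2 : h * (t * (star h * w * h)) * star h = h * t * star h * w * (h * star h) := by
    noncomm_ring
  have e3 : h * ((star h * w * h) * t) * star h = (h * star h) * w * (h * t * star h) := by
    noncomm_ring
  rw [e2, e3, hh1, mul_one, one_mul] at h6
  exact h6

theorem nrm_star (w : MN N) {h : MN N} (hh : h ∈ Nrm G w) : star h ∈ Nrm G w := by
  obtain ⟨_, hmul, hstar, hun⟩ := HQ.matSet_basic G
  obtain ⟨hh1, hh2, _⟩ := hun h hh.1
  refine ⟨hstar h hh.1, ?_⟩
  rw [star_star]
  have h4 : star h * ((h * w * star h) * w) * h = star h * (w * (h * w * star h)) * h := by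
    rw [hh.2]
  have e2 : star h * ((h * w * star h) * w) * h = (star h * h) * w * (star h * w * h) := by
    noncomm_ring
  have e3 : star h * (w * (h * w * star h)) * h = star h * w * h * w * (star h * h) := by
    noncomm_ring
  rw [e2, e3, hh2, mul_one, one_mul] at h4
  exact h4.symm

theorem nrm_one (w : MN N) : (1 : MN N) ∈ Nrm G w := by
  obtain ⟨h1, _⟩ := HQ.matSet_basic G
  exact ⟨h1, by simp⟩

include hG in
/-- If the normaliser is the whole group then the Lie algebra is commutative. -/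
theorem comm_of_nrm (w : MN N) (hw : w ∈ HQ.LieSet G)
    (hcomm : ∀ x ∈ cent (HQ.LieSet G) w, ∀ y ∈ cent (HQ.LieSet G) w, x * y = y * x)
    (hall : ∀ h ∈ HQ.matSet G, h ∈ Nrm G w) :
    ∀ x ∈ HQ.LieSet G, ∀ y ∈ HQ.LieSet G, x * y = y * x := by
  have hL := lieData hG
  have key : ∀ y ∈ HQ.LieSet G, y * w = w * y := by
    intro y hy
    have hd := HQ.ad_inv_key y (hL.skew y hy) w
    have hd2 := (hd.mul_const w).sub (hd.const_mul w)
    have hd3 : HasDerivAt (fun t : ℝ => NormedSpace.exp (t • y) * w * star (NormedSpace.exp (t • y)) * w -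
        w * (NormedSpace.exp (t • y) * w * star (NormedSpace.exp (t • y)))) 0 0 := by
      have : (fun t : ℝ => NormedSpace.exp (t • y) * w * star (NormedSpace.exp (t • y)) * w -
        w * (NormedSpace.exp (t • y) * w * star (NormedSpace.exp (t • y)))) = fun _ => 0 := by
        funext t
        exact sub_eq_zero.2 (hall _ (hy t)).2
      rw [this]
      exact hasDerivAt_const _ _
    have h1 : (y * w - w * y) * w - w * (y * w - w * y) = 0 := hd2.unique hd3
    have hbr : y * w - w * y ∈ HQ.LieSet G := hL.brk y hy w hw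
    have h2 := HQ.ad_inv G hG (BB N) (biinv hG) y (y * w - w * y) w hy hbr hw
    have h3 : w * (y * w - w * y) - (y * w - w * y) * w = 0 := by
      have : w * (y * w - w * y) - (y * w - w * y) * w =
        -((y * w - w * y) * w - w * (y * w - w * y)) := by abel
      rw [this, h1, neg_zero]
    rw [h3, map_zero, add_zero] at h2
    have h4 : w * y - y * w = -(y * w - w * y) := by abel
    rw [h4, map_neg, LinearMap.neg_apply, neg_eq_zero] at h2
    by_contra hne
    have := (biinv hG).pos _ hbr (sub_ne_zero.2 hne)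
    exact this.ne' h2
  intro x hx y hy
  exact hcomm x ⟨hx, key x hx⟩ y ⟨hy, key y hy⟩

include hG in
/-- There is a regular element. -/
theorem exists_reg : ∃ w ∈ HQ.LieSet G,
    ∀ x ∈ cent (HQ.LieSet G) w, ∀ y ∈ cent (HQ.LieSet G) w, x * y = y * x := by
  have hL := lieData hG
  obtain ⟨w, hw, hmax⟩ := exists_max hL
  exact ⟨w, hw, fun x hx y hy => comm_of_max hL hw hx.1 hx.2 hmax hy.2⟩

end grp

end Pool.Agent.U682.TIG
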