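import Pool.Agent.U682.TIG.Cartan
import Pool.Agent.E8helper46.FL.ExpLie
import Pool.Agent.Y842.CX.Sep

/-!
# Compact groups all of whose closed subgroups meeting every conjugacy class are the whole group
have a commutative identity component
-/

set_option autoImplicit false

namespace Pool.Agent.U682.TIG

open Matrix Module Topology Filter
open scoped ComplexOrder Matrix.Norms.L2Operator

/-- every closed subgroup which meets all conjugacy classes is the whole group -/
def TIG (K : Type*) [Group K] [TopologicalSpace K] : Prop :=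
  ∀ H : Subgroup K, IsClosed (H : Set K) → (∀ x : K, ∃ y : K, y * x * y⁻¹ ∈ H) → H = ⊤

section

variable {K : Type*} [Group K] [TopologicalSpace K] [IsTopologicalGroup K] [CompactSpace K]

variable {N : ℕ} (ρ : K →* Matrix.unitaryGroup (Fin N) ℂ) (hρ : Continuous ρ)

theorem matSet_range : HQ.matSet ρ.range = Set.range (fun k => (ρ k : MN N)) := by
  ext X
  constructor
  · rintro ⟨g, ⟨k, rfl⟩, rfl⟩
    exact ⟨k, rfl⟩
  · rintro ⟨k, rfl⟩
    exact ⟨ρ k, ⟨k, rfl⟩, rfl⟩

include hρ in
theorem matSet_compact : IsCompact (HQ.matSet ρ.range) := by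
  rw [matSet_range]
  exact isCompact_range (continuous_subtype_val.comp hρ)

theorem coe_inv (k : K) : (ρ k⁻¹ : MN N) = star (ρ k : MN N) := by
  rw [map_inv]; rfl

theorem coe_mul (k l : K) : (ρ (k * l) : MN N) = (ρ k : MN N) * (ρ l : MN N) := by
  rw [map_mul]; rfl

include hρ in
theorem lieSet_comm (hK : TIG K) :
    ∀ x ∈ HQ.LieSet ρ.range, ∀ y ∈ HQ.LieSet ρ.range, x * y = y * x := by
  have hGc := matSet_compact ρ hρ
  have hG : IsClosed (HQ.matSet ρ.range) := hGc.isClosed
  obtain ⟨w, hw, hcomm⟩ := exists_reg hG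
  let H : Subgroup K :=
    { carrier := {x | (ρ x : MN N) ∈ Nrm ρ.range w}
      mul_mem' := by
        intro a b ha hb
        show (ρ (a * b) : MN N) ∈ Nrm ρ.range w
        rw [coe_mul]
        exact nrm_mul hG w hw hcomm ha hb
      one_mem' := by
        show (ρ 1 : MN N) ∈ Nrm ρ.range w
        rw [map_one]
        exact nrm_one w
      inv_mem' := by
        intro a ha
        show (ρ a⁻¹ : MN N) ∈ Nrm ρ.range w
        rw [coe_inv]
        exact nrm_star w ha }
  have hmemH : ∀ x, x ∈ H ↔ (ρ x : MN N) ∈ Nrm ρ.range w := fun x => Iff.rfl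
  have hmat : ∀ x, (ρ x : MN N) ∈ HQ.matSet ρ.range := fun x => ⟨ρ x, ⟨x, rfl⟩, rfl⟩
  have hHcl : IsClosed (H : Set K) := by
    have hc : Continuous fun x : K => (ρ x : MN N) := continuous_subtype_val.comp hρ
    have e : (H : Set K) = {x | ((ρ x : MN N) * w * star (ρ x : MN N)) * w =
        w * ((ρ x : MN N) * w * star (ρ x : MN N))} := by
      ext x
      constructor
      · intro hx; exact hx.2
      · intro hx; exact ⟨hmat x, hx⟩
    rw [e]
    have hc1 : Continuous fun x : K => (ρ x : MN N) * w * star (ρ x : MN N) :=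
      (hc.mul continuous_const).mul hc.star
    exact isClosed_eq (hc1.mul continuous_const) (continuous_const.mul hc1)
  have hdom : ∀ x : K, ∃ y : K, y * x * y⁻¹ ∈ H := by
    intro x
    obtain ⟨k, hk, hkn⟩ := conj_into hG hGc w hw (ρ x) (hmat x)
    rw [matSet_range] at hk
    obtain ⟨y, hy⟩ := hk
    refine ⟨y⁻¹, ?_⟩
    rw [inv_inv, hmemH, coe_mul, coe_mul, coe_inv]
    simp only at hy
    rw [hy]
    exact hkn
  have htop := hK H hHcl hdom
  refine comm_of_nrm hG w hw hcomm ?_
  intro h hh
  rw [matSet_range] at hh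
  obtain ⟨y, hy⟩ := hh
  rw [← hy]
  have : y ∈ H := by rw [htop]; trivial
  exact this

include hρ in
/-- the representations are commutative on the identity component -/
theorem comp_comm (hK : TIG K) {x y : K} (hx : x ∈ connectedComponent (1 : K))
    (hy : y ∈ connectedComponent (1 : K)) : ρ x * ρ y = ρ y * ρ x := by
  have hcomm := lieSet_comm ρ hρ hK
  -- the representation in the units
  let ρ' : K →* (MN N)ˣ := (Unitary.toUnits).comp ρ
  have hρ'v : ∀ k, ((ρ' k : (MN N)ˣ) : MN N) = ρ k := fun k => rfl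
  have hρ'c : Continuous ρ' := by
    rw [Units.continuous_iff]
    refine ⟨continuous_subtype_val.comp hρ, ?_⟩
    have : (fun k => ((ρ' k)⁻¹ : (MN N)ˣ).val) = fun k => (ρ k⁻¹ : MN N) := by
      funext k
      rw [← map_inv]
      rfl
    rw [this]
    exact continuous_subtype_val.comp (hρ.comp continuous_inv)
  have hD : IsClosed (ρ'.range : Set (MN N)ˣ) := by
    have : (ρ'.range : Set (MN N)ˣ) = Set.range ρ' := MonoidHom.coe_range ρ'
    rw [this]
    exact (isCompact_range hρ'c).isClosed
  have hlie : ∀ X ∈ E8helper46.FL.lieAlg ρ'.range hD, X ∈ HQ.LieSet ρ.range := by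
    intro X hX t
    obtain ⟨k, hk⟩ := hX t
    rw [matSet_range]
    refine ⟨k, ?_⟩
    simp only
    rw [← hρ'v, hk, E8helper46.FL.ex_val]
  have hcomm' : ∀ X ∈ E8helper46.FL.lieAlg ρ'.range hD, ∀ Y ∈ E8helper46.FL.lieAlg ρ'.range hD,
      Commute X Y := fun X hX Y hY => hcomm X (hlie X hX) Y (hlie Y hY)
  have hnear := E8helper46.FL.near_one ρ'.range hD
  let E : Subgroup K :=
    { carrier := {k | ∃ X ∈ E8helper46.FL.lieAlg ρ'.range hD, ρ' k = E8helper46.FL.ex X}
      mul_mem' := by
        rintro a b ⟨X, hX, ha⟩ ⟨Y, hY, hb⟩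
        refine ⟨X + Y, Submodule.add_mem _ hX hY, ?_⟩
        rw [map_mul, ha, hb, E8helper46.FL.ex_add (hcomm' X hX Y hY)]
      one_mem' := ⟨0, Submodule.zero_mem _, by rw [map_one, E8helper46.FL.ex_zero]⟩
      inv_mem' := by
        rintro a ⟨X, hX, ha⟩
        refine ⟨-X, Submodule.neg_mem _ hX, ?_⟩
        rw [map_inv, ha, E8helper46.FL.ex_neg] }
  have hEn : (E : Set K) ∈ 𝓝 (1 : K) := by
    have h1 : Tendsto ρ' (𝓝 1) (𝓝 1) := by
      have := hρ'c.tendsto 1
      rwa [map_one] at this
    have h2 := h1.eventually hnear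
    filter_upwards [h2] with k hk
    exact hk ⟨k, rfl⟩
  have hEo : IsOpen (E : Set K) := E.isOpen_of_mem_nhds hEn
  have hEc : IsClosed (E : Set K) := E.isClosed_of_isOpen hEo
  have hsub : connectedComponent (1 : K) ⊆ (E : Set K) :=
    IsClopen.connectedComponent_subset ⟨hEc, hEo⟩ E.one_mem
  obtain ⟨X, hX, hxX⟩ := hsub hx
  obtain ⟨Y, hY, hyY⟩ := hsub hy
  have h1 : ρ' x * ρ' y = ρ' y * ρ' x := by
    rw [hxX, hyY, ← E8helper46.FL.ex_add (hcomm' X hX Y hY),
      ← E8helper46.FL.ex_add (hcomm' Y hY X hX), add_comm]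
  apply Subtype.ext
  have := congrArg Units.val h1
  exact this

end

/-- the identity component of a compact group of this kind is commutative -/
theorem identity_comm {K : Type} [Group K] [TopologicalSpace K] [IsTopologicalGroup K]
    [CompactSpace K] [T2Space K] (hK : TIG K) {x y : K} (hx : x ∈ connectedComponent (1 : K))
    (hy : y ∈ connectedComponent (1 : K)) : x * y = y * x := by
  by_contra hne
  obtain ⟨r, ρ, hρ, hne'⟩ := Y842.CX.separated_of_compact K (x * y) (y * x) hne
  apply hne'
  rw [map_mul, map_mul]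
  exact comp_comm ρ hρ hK hx hy

end Pool.Agent.U682.TIG
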