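import Mathlib

/-!
# A commutativity lemma for spaces of skew-Hermitian matrices with an automorphism

Let `S` be a real Lie algebra of skew-Hermitian matrices which is invariant under the conjugation by
a unitary matrix `g`.  If every element of `S` fixed by this conjugation is central in `S`, then `S`
is commutative.
-/

set_option autoImplicit false

namespace Pool.Agent.U682.TIG

open Matrix
open scoped ComplexOrder

/-- complex square matrices -/
abbrev MN (N : ℕ) := Matrix (Fin N) (Fin N) ℂ

variable {N : ℕ}

/-- the commutator -/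
def br (x y : MN N) : MN N := x * y - y * x

theorem br_swap (x y : MN N) : br x y = -br y x := by
  unfold br; abel

theorem eq_zero_of_trace {z : MN N} (h : trace (star z * z) = 0) : z = 0 := by
  rw [star_eq_conjTranspose] at h
  exact trace_conjTranspose_mul_self_eq_zero_iff.1 h

theorem normal_star_comm {x z : MN N} (hx : x * star x = star x * x) (hz : x * z = z * x) :
    star x * z = z * star x := by
  have h0 : star x * z - z * star x = 0 := by
    apply eq_zero_of_trace
    have e0 : trace (star (x * z - z * x) * (x * z - z * x)) = 0 := by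
      rw [hz]; simp
    rw [← e0]
    have a1 : star (star x * z - z * star x) * (star x * z - z * star x) =
        star z * (x * star x) * z - (star z * (x * z)) * star x - (x * star z * star x) * z +
          x * (star z * z * star x) := by
      simp only [star_sub, star_mul, star_star]
      noncomm_ring
    have a2 : star (x * z - z * x) * (x * z - z * x) =
        star z * (star x * x) * z - (star z * star x * z) * x - star x * (star z * x * z) +
          star x * (star z * z * x) := by
      simp only [star_sub, star_mul]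
      noncomm_ring
    rw [a1, a2]
    simp only [trace_add, trace_sub]
    have b1 : trace ((star z * (x * z)) * star x) = trace (star x * (star z * x * z)) := by
      rw [trace_mul_comm]
      congr 1
      noncomm_ring
    have b2 : trace ((x * star z * star x) * z) = trace ((star z * star x * z) * x) := by
      rw [trace_mul_comm (star z * star x * z) x]
      congr 1
      noncomm_ring
    have b3 : trace (x * (star z * z * star x)) = trace (star x * (star z * z * x)) := by
      rw [trace_mul_comm x, trace_mul_comm (star x)]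
      rw [mul_assoc (star z * z), mul_assoc (star z * z), hx]
    rw [b1, b2, b3, hx]
    ring
  exact sub_eq_zero.1 h0

theorem normal_br {x y : MN N} (hx : x * star x = star x * x) (h : br x (br x y) = 0) :
    br x y = 0 := by
  apply eq_zero_of_trace
  obtain ⟨z, hz⟩ : ∃ z, z = br x y := ⟨_, rfl⟩
  have h1 : x * z = z * x := by rw [hz]; exact sub_eq_zero.1 h
  have h2 := normal_star_comm hx h1
  have h3 : star z * x = x * star z := by
    have := congrArg star h2
    simpa [star_mul] using this
  have h4 : star z * (x * y - y * x) = (star z * x) * y - (star z * y) * x := by noncomm_ring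
  rw [← hz]
  nth_rw 2 [hz]
  unfold br
  rw [h4, trace_sub, trace_mul_comm (star z * y) x, h3]
  have h5 : x * (star z * y) = (x * star z) * y := by noncomm_ring
  rw [h5, sub_self]

theorem normal_iter {x : MN N} (hx : x * star x = star x * x) (k : ℕ) :
    ∀ y : MN N, br x ((br x)^[k] y) = 0 → br x y = 0 := by
  induction k with
  | zero => intro y h; exact h
  | succ k ih =>
    intro y h
    rw [Function.iterate_succ_apply] at h
    exact normal_br hx (ih _ h)

section conj

variable {g : MN N}

theorem conj_mul (hg : star g * g = 1) (x y : MN N) :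
    g * (x * y) * star g = (g * x * star g) * (g * y * star g) := by
  have : (g * x * star g) * (g * y * star g) = g * x * (star g * g) * y * star g := by noncomm_ring
  rw [this, hg]
  noncomm_ring

theorem conj_br (hg : star g * g = 1) (x y : MN N) :
    g * br x y * star g = br (g * x * star g) (g * y * star g) := by
  unfold br
  rw [← conj_mul hg, ← conj_mul hg]
  noncomm_ring

theorem conj_star (x : MN N) : g * star x * star g = star (g * x * star g) := by
  simp only [star_mul, star_star]
  noncomm_ring

theorem conj_trace (hg : star g * g = 1) (x y : MN N) :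
    trace (star (g * x * star g) * (g * y * star g)) = trace (star x * y) := by
  rw [← conj_star, ← conj_mul hg, trace_mul_comm, ← mul_assoc, hg, one_mul]

/-- generalised eigenvectors of a conjugation are eigenvectors -/
theorem gen_two (hg : star g * g = 1) {l : ℂ} {v u : MN N} (h1 : g * v * star g = l • v + u)
    (h2 : g * u * star g = l • u) : u = 0 := by
  by_contra hu
  have ht : trace (star u * u) ≠ 0 := fun h => hu (eq_zero_of_trace h)
  have e1 := conj_trace hg u u
  rw [h2] at e1
  have e1' : (star l * l) * trace (star u * u) = trace (star u * u) := by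
    refine Eq.trans ?_ e1
    simp only [star_smul, smul_mul_assoc, mul_smul_comm, trace_smul, smul_eq_mul]
    ring
  have hl : star l * l = 1 := by
    have : (star l * l - 1) * trace (star u * u) = 0 := by
      rw [sub_mul, e1']; ring
    rcases mul_eq_zero.1 this with h | h
    · exact sub_eq_zero.1 h
    · exact absurd h ht
  have e2 := conj_trace hg v u
  rw [h1, h2] at e2
  have e2' : (star l * l) * trace (star v * u) + l * trace (star u * u) = trace (star v * u) := by
    refine Eq.trans ?_ e2
    simp only [star_smul, star_add, smul_mul_assoc, mul_smul_comm, trace_smul, smul_eq_mul, add_mul,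
      trace_add, mul_add]
    ring
  rw [hl, one_mul] at e2'
  have e3 : l * trace (star u * u) = 0 := by linear_combination e2'
  rcases mul_eq_zero.1 e3 with h | h
  · rw [h] at hl; simp at hl
  · exact ht h

theorem iter_eig (hg : star g * g = 1) {l m : ℂ} {x y : MN N} (hx : g * x * star g = l • x)
    (hy : g * y * star g = m • y) (k : ℕ) :
    g * ((br x)^[k] y) * star g = (l ^ k * m) • ((br x)^[k] y) := by
  induction k with
  | zero => simpa using hy
  | succ k ih =>
    rw [Function.iterate_succ_apply', conj_br hg, hx, ih]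
    unfold br
    simp only [smul_mul_assoc, mul_smul_comm, smul_smul, smul_sub]
    congr 1
    · congr 1; ring
    · congr 1; ring

end conj

/-! ### roots of unity -/

theorem exists_coprime (i j n : ℕ) (hn : 0 < n) (h : Nat.gcd (Nat.gcd i j) n = 1) :
    ∃ k, Nat.Coprime (j + k * i) n := by
  classical
  refine ⟨∏ p ∈ n.primeFactors.filter (fun p => ¬ p ∣ j), p, ?_⟩
  set k := ∏ p ∈ n.primeFactors.filter (fun p => ¬ p ∣ j), p with hk
  rw [Nat.coprime_iff_gcd_eq_one]
  by_contra hne
  obtain ⟨p, hp, hpd⟩ := Nat.exists_prime_and_dvd hne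
  have hp1 : p ∣ j + k * i := hpd.trans (Nat.gcd_dvd_left _ _)
  have hp2 : p ∣ n := hpd.trans (Nat.gcd_dvd_right _ _)
  by_cases hj : p ∣ j
  · have h1 : p ∣ k * i := (Nat.dvd_add_right hj).1 hp1
    rcases (hp.dvd_mul).1 h1 with h2 | h2
    · rw [hk, Prime.dvd_finsetProd_iff hp.prime] at h2
      obtain ⟨q, hq, hpq⟩ := h2
      rw [Finset.mem_filter, Nat.mem_primeFactors] at hq
      have := (Nat.prime_dvd_prime_iff_eq hp hq.1.1).1 hpq
      rw [this] at hj
      exact hq.2 hj
    · have h3 : p ∣ Nat.gcd (Nat.gcd i j) n := Nat.dvd_gcd (Nat.dvd_gcd h2 hj) hp2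
      rw [h] at h3
      exact hp.one_lt.ne' (Nat.dvd_one.1 h3)
  · have h1 : p ∣ k := by
      rw [hk]
      apply Finset.dvd_prod_of_mem
      rw [Finset.mem_filter, Nat.mem_primeFactors]
      exact ⟨⟨hp, hp2, hn.ne'⟩, hj⟩
    exact hj ((Nat.dvd_add_left (h1.mul_right i)).1 hp1)

theorem exists_pow (l m : ℂ) (a b : ℕ) (ha : 0 < a) (hb : 0 < b) (hl : l ^ a = 1) (hm : m ^ b = 1) :
    ∃ k c : ℕ, (l ^ k * m) ^ c * l = 1 := by
  obtain ⟨n, hn⟩ : ∃ n, n = a * b := ⟨_, rfl⟩
  have hn0 : 0 < n := by rw [hn]; positivity
  have hz : IsPrimitiveRoot (Complex.exp (2 * Real.pi * Complex.I / n)) n :=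
    Complex.isPrimitiveRoot_exp n hn0.ne'
  obtain ⟨z, hzz⟩ : ∃ z, z = Complex.exp (2 * Real.pi * Complex.I / n) := ⟨_, rfl⟩
  rw [← hzz] at hz
  have hln : l ^ n = 1 := by rw [hn, pow_mul, hl, one_pow]
  have hmn : m ^ n = 1 := by rw [hn, mul_comm, pow_mul, hm, one_pow]
  have : NeZero n := ⟨hn0.ne'⟩
  obtain ⟨i, _, hi⟩ := hz.eq_pow_of_pow_eq_one hln
  obtain ⟨j, _, hj⟩ := hz.eq_pow_of_pow_eq_one hmn
  obtain ⟨d, hd⟩ : ∃ d, d = Nat.gcd (Nat.gcd i j) n := ⟨_, rfl⟩
  have hd0 : 0 < d := by rw [hd]; exact Nat.gcd_pos_of_pos_right _ hn0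
  obtain ⟨n', hn'⟩ : d ∣ n := by rw [hd]; exact Nat.gcd_dvd_right _ _
  obtain ⟨i', hi'⟩ : d ∣ i := by
    rw [hd]; exact (Nat.gcd_dvd_left _ _).trans (Nat.gcd_dvd_left _ _)
  obtain ⟨j', hj'⟩ : d ∣ j := by
    rw [hd]; exact (Nat.gcd_dvd_left _ _).trans (Nat.gcd_dvd_right _ _)
  have hn'0 : 0 < n' := by
    rcases Nat.eq_zero_or_pos n' with h | h
    · rw [h, mul_zero] at hn'; omega
    · exact h
  have hg : Nat.gcd (Nat.gcd i' j') n' = 1 := by
    have h1 : d = d * Nat.gcd (Nat.gcd i' j') n' := by
      conv_lhs => rw [hd, hi', hj', hn', Nat.gcd_mul_left, Nat.gcd_mul_left]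
    have h2 : d * 1 = d * Nat.gcd (Nat.gcd i' j') n' := by rw [mul_one]; exact h1
    exact (Nat.eq_of_mul_eq_mul_left hd0 h2).symm
  obtain ⟨k, hk⟩ := exists_coprime i' j' n' hn'0 hg
  obtain ⟨w, hw⟩ : ∃ w, w = z ^ d := ⟨_, rfl⟩
  have hwn : w ^ n' = 1 := by rw [hw, ← pow_mul, ← hn', hz.pow_eq_one]
  have hli : l = w ^ i' := by rw [hw, ← pow_mul, ← hi', hi]
  have hmj : m = w ^ j' := by rw [hw, ← pow_mul, ← hj', hj]
  -- find `c` with `c * (j' + k i') + i'` divisible by `n'`
  obtain ⟨c, hc⟩ : ∃ c : ℕ, n' ∣ (j' + k * i') * c + i' := by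
    have : NeZero n' := ⟨hn'0.ne'⟩
    refine ⟨((-(i' : ZMod n')) * ((j' + k * i' : ℕ) : ZMod n')⁻¹).val, ?_⟩
    rw [← ZMod.natCast_eq_zero_iff]
    push_cast
    rw [ZMod.natCast_zmod_val]
    have h1 : ((j' + k * i' : ℕ) : ZMod n') * ((j' + k * i' : ℕ) : ZMod n')⁻¹ = 1 :=
      ZMod.coe_mul_inv_eq_one _ hk
    push_cast at h1
    linear_combination (-(i' : ZMod n')) * h1
  refine ⟨k, c, ?_⟩
  obtain ⟨q, hq⟩ := hc
  have : (l ^ k * m) ^ c * l = w ^ ((j' + k * i') * c + i') := by
    rw [hli, hmj]
    rw [← pow_mul, ← pow_add, ← pow_mul, ← pow_add]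
    congr 1
    ring
  rw [this, hq, pow_mul, hwn, one_pow]

end Pool.Agent.U682.TIG
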