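import Pool.Agent.U682.TIG.LemW

/-!
# A commutativity lemma for spaces of skew-Hermitian matrices with an automorphism, part 2
-/

set_option autoImplicit false

namespace Pool.Agent.U682.TIG

open Matrix Module
open scoped ComplexOrder

variable {N : ℕ}

/-- real Lie algebras of skew-Hermitian matrices -/
structure LieData (S : Set (MN N)) : Prop where
  zero : (0 : MN N) ∈ S
  add : ∀ x ∈ S, ∀ y ∈ S, x + y ∈ S
  smul : ∀ (r : ℝ), ∀ x ∈ S, r • x ∈ S
  skew : ∀ x ∈ S, star x = -x
  brk : ∀ x ∈ S, ∀ y ∈ S, x * y - y * x ∈ S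

theorem LieData.neg {S : Set (MN N)} (hS : LieData S) {x : MN N} (hx : x ∈ S) : -x ∈ S := by
  have := hS.smul (-1) x hx
  simpa using this

theorem LieData.sub {S : Set (MN N)} (hS : LieData S) {x y : MN N} (hx : x ∈ S) (hy : y ∈ S) :
    x - y ∈ S := by
  rw [sub_eq_add_neg]
  exact hS.add _ hx _ (hS.neg hy)

/-- the complexification -/
def cplx (S : Set (MN N)) (hS : LieData S) : Submodule ℂ (MN N) where
  carrier := {x | ∃ a ∈ S, ∃ b ∈ S, x = a + Complex.I • b}
  zero_mem' := ⟨0, hS.zero, 0, hS.zero, by simp⟩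
  add_mem' := by
    rintro x y ⟨a, ha, b, hb, rfl⟩ ⟨c, hc, d, hd, rfl⟩
    refine ⟨a + c, hS.add _ ha _ hc, b + d, hS.add _ hb _ hd, ?_⟩
    rw [smul_add]; abel
  smul_mem' := by
    rintro c x ⟨a, ha, b, hb, rfl⟩
    refine ⟨c.re • a - c.im • b, hS.sub (hS.smul _ _ ha) (hS.smul _ _ hb), c.im • a + c.re • b,
      hS.add _ (hS.smul _ _ ha) _ (hS.smul _ _ hb), ?_⟩
    ext i j
    simp only [Matrix.smul_apply, Matrix.add_apply, Matrix.sub_apply, smul_eq_mul, Complex.real_smul]
    have hc : (c.re : ℂ) + c.im * Complex.I = c := Complex.re_add_im c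
    have hI : Complex.I * Complex.I = -1 := Complex.I_mul_I
    calc c * (a i j + Complex.I * b i j)
        = ((c.re : ℂ) + c.im * Complex.I) * (a i j + Complex.I * b i j) := by rw [hc]
      _ = _ := by linear_combination ((c.im : ℂ) * b i j) * hI

theorem mem_cplx {S : Set (MN N)} {hS : LieData S} {x : MN N} :
    x ∈ cplx S hS ↔ ∃ a ∈ S, ∃ b ∈ S, x = a + Complex.I • b := Iff.rfl

theorem cplx_of_mem {S : Set (MN N)} (hS : LieData S) {x : MN N} (hx : x ∈ S) :
    x ∈ cplx S hS := ⟨x, hx, 0, hS.zero, by simp⟩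

theorem cplx_br {S : Set (MN N)} (hS : LieData S) {x y : MN N} (hx : x ∈ cplx S hS)
    (hy : y ∈ cplx S hS) : br x y ∈ cplx S hS := by
  obtain ⟨a, ha, b, hb, rfl⟩ := hx
  obtain ⟨c, hc, d, hd, rfl⟩ := hy
  refine ⟨(a * c - c * a) - (b * d - d * b), hS.sub (hS.brk _ ha _ hc) (hS.brk _ hb _ hd),
    (a * d - d * a) + (b * c - c * b), hS.add _ (hS.brk _ ha _ hd) _ (hS.brk _ hb _ hc), ?_⟩
  unfold br
  simp only [add_mul, mul_add, smul_mul_assoc, mul_smul_comm, smul_smul, Complex.I_mul_I, smul_add,
    smul_sub, neg_smul, one_smul]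
  abel

theorem cplx_star {S : Set (MN N)} (hS : LieData S) {x : MN N} (hx : x ∈ cplx S hS) :
    star x ∈ cplx S hS := by
  obtain ⟨a, ha, b, hb, rfl⟩ := hx
  refine ⟨-a, hS.neg ha, b, hb, ?_⟩
  rw [star_add, star_smul, hS.skew a ha, hS.skew b hb]
  simp

section main

variable {S : Set (MN N)} (hS : LieData S) {g : MN N} (hg : star g * g = 1)
  (hconj : ∀ x ∈ S, g * x * star g ∈ S)
  (hfix : ∀ x ∈ S, g * x * star g = x → ∀ y ∈ S, x * y = y * x)

include hconj in
theorem cplx_conj {x : MN N} (hx : x ∈ cplx S hS) : g * x * star g ∈ cplx S hS := by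
  obtain ⟨a, ha, b, hb, rfl⟩ := hx
  refine ⟨_, hconj a ha, _, hconj b hb, ?_⟩
  rw [mul_add, add_mul, mul_smul_comm, smul_mul_assoc]

include hconj hfix in
theorem cplx_fix {x y : MN N} (hx : x ∈ cplx S hS) (hxg : g * x * star g = x)
    (hy : y ∈ cplx S hS) : br x y = 0 := by
  obtain ⟨a, ha, b, hb, rfl⟩ := hx
  have h1 : (g * a * star g - a) + Complex.I • (g * b * star g - b) = 0 := by
    have : g * (a + Complex.I • b) * star g = g * a * star g + Complex.I • (g * b * star g) := by
      rw [mul_add, add_mul, mul_smul_comm, smul_mul_assoc]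
    rw [this] at hxg
    rw [smul_sub]
    have h2 : g * a * star g - a + (Complex.I • (g * b * star g) - Complex.I • b) =
      (g * a * star g + Complex.I • (g * b * star g)) - (a + Complex.I • b) := by abel
    rw [h2, hxg, sub_self]
  have hp : star (g * a * star g - a) = -(g * a * star g - a) :=
    hS.skew _ (hS.sub (hconj a ha) ha)
  have hq : star (g * b * star g - b) = -(g * b * star g - b) :=
    hS.skew _ (hS.sub (hconj b hb) hb)
  obtain ⟨p, hpp⟩ : ∃ p, p = g * a * star g - a := ⟨_, rfl⟩
  obtain ⟨q, hqq⟩ : ∃ q, q = g * b * star g - b := ⟨_, rfl⟩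
  rw [← hpp] at h1 hp
  rw [← hqq] at h1 hq
  have h2 : -p + Complex.I • q = 0 := by
    have := congrArg star h1
    rw [star_add, star_smul, hp, hq] at this
    simpa using this
  have h3 : p = 0 := by
    have : (2 : ℂ) • p = 0 := by
      have h4 : (2 : ℂ) • p = (p + Complex.I • q) - (-p + Complex.I • q) := by
        rw [two_smul]; abel
      rw [h4, h1, h2, sub_zero]
    exact (smul_eq_zero.1 this).resolve_left two_ne_zero
  have h4 : q = 0 := by
    rw [h3, neg_zero, zero_add] at h2
    exact (smul_eq_zero.1 h2).resolve_left Complex.I_ne_zero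
  have ha' : g * a * star g = a := by
    rw [hpp] at h3; exact sub_eq_zero.1 h3
  have hb' : g * b * star g = b := by
    rw [hqq] at h4; exact sub_eq_zero.1 h4
  obtain ⟨c, hc, d, hd, rfl⟩ := hy
  unfold br
  simp only [add_mul, mul_add, smul_mul_assoc, mul_smul_comm, smul_smul, smul_add]
  rw [hfix a ha ha' c hc, hfix a ha ha' d hd, hfix b hb hb' c hc, hfix b hb hb' d hd]
  abel

include hS hg hconj hfix in
theorem eig_normal {l : ℂ} {x : MN N} (hx : x ∈ cplx S hS) (hxl : g * x * star g = l • x) :
    x * star x = star x * x := by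
  by_cases h0 : x = 0
  · rw [h0]; simp
  have ht : trace (star x * x) ≠ 0 := fun h => h0 (eq_zero_of_trace h)
  have e1 := conj_trace hg x x
  rw [hxl] at e1
  have hl : star l * l = 1 := by
    have e1' : (star l * l) * trace (star x * x) = trace (star x * x) := by
      refine Eq.trans ?_ e1
      simp only [star_smul, smul_mul_assoc, mul_smul_comm, trace_smul, smul_eq_mul]
      ring
    have : (star l * l - 1) * trace (star x * x) = 0 := by
      rw [sub_mul, e1']; ring
    rcases mul_eq_zero.1 this with h | h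
    · exact sub_eq_zero.1 h
    · exact absurd h ht
  have h1 : g * br x (star x) * star g = br x (star x) := by
    rw [conj_br hg, conj_star, hxl]
    unfold br
    simp only [star_smul, smul_mul_assoc, mul_smul_comm, smul_smul]
    rw [hl, mul_comm, hl, one_smul, one_smul]
  have hW : br x (star x) ∈ cplx S hS := cplx_br hS hx (cplx_star hS hx)
  have hc := cplx_fix hS hconj hfix hW h1 hx
  have hc0 : br x (star x) = 0 := by
    apply eq_zero_of_trace
    have hs : star (br x (star x)) = br x (star x) := by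
      unfold br; simp [star_mul]
    rw [hs]
    obtain ⟨c, hcc⟩ : ∃ c, c = br x (star x) := ⟨_, rfl⟩
    rw [← hcc] at hc ⊢
    nth_rw 2 [hcc]
    have h2 : c * x = x * c := sub_eq_zero.1 hc
    unfold br
    have h3 : c * (x * star x - star x * x) = c * x * star x - (c * star x) * x := by noncomm_ring
    rw [h3, trace_sub, trace_mul_comm (c * star x) x, ← mul_assoc, h2, sub_self]
  exact sub_eq_zero.1 hc0

include hS hg hconj hfix in
theorem eig_comm {l m : ℂ} {x y : MN N} (hx : x ∈ cplx S hS) (hxl : g * x * star g = l • x)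
    (hy : y ∈ cplx S hS) (hym : g * y * star g = m • y) : br x y = 0 := by
  by_contra hne
  have hnx := eig_normal hS hg hconj hfix hx hxl
  have hny := eig_normal hS hg hconj hfix hy hym
  have hne' : br y x ≠ 0 := by
    rw [br_swap]; exact neg_ne_zero.2 hne
  -- iterates are nonzero
  have hit : ∀ {u v : MN N}, u * star u = star u * u → br u v ≠ 0 → ∀ k, (br u)^[k] v ≠ 0 := by
    intro u v hu huv k h0
    apply huv
    apply normal_iter hu k
    rw [h0]
    unfold br; simp
  have hW : ∀ {u v : MN N}, u ∈ cplx S hS → v ∈ cplx S hS → ∀ k, (br u)^[k] v ∈ cplx S hS := by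
    intro u v hu hv k
    induction k with
    | zero => exact hv
    | succ k ih => rw [Function.iterate_succ_apply']; exact cplx_br hS hu ih
  -- finite order
  have hfo : ∀ {u v : MN N} {a b : ℂ}, u * star u = star u * u → br u v ≠ 0 →
      g * u * star g = a • u → g * v * star g = b • v → ∃ n : ℕ, 0 < n ∧ a ^ n = 1 := by
    intro u v a b hu huv hua hvb
    obtain ⟨T, hT⟩ : ∃ T : End ℂ (MN N), ∀ z, T z = g * z * star g :=
      ⟨{ toFun := fun z => g * z * star g
         map_add' := fun z w => by rw [mul_add, add_mul]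
         map_smul' := fun c z => by rw [mul_smul_comm, smul_mul_assoc]; rfl }, fun z => rfl⟩
    have hfin := T.finite_hasEigenvalue
    have hev : ∀ k : ℕ, T.HasEigenvalue (a ^ k * b) := by
      intro k
      refine End.hasEigenvalue_of_hasEigenvector (x := (br u)^[k] v) ⟨?_, hit hu huv k⟩
      rw [End.mem_eigenspace_iff, hT]
      exact iter_eig hg hua hvb k
    obtain ⟨k, k', hlt, hkk⟩ := hfin.exists_lt_map_eq_of_forall_mem (f := fun k : ℕ => a ^ k * b) hev
    have hv0 : v ≠ 0 := hit hu huv 0
    have hu0 : u ≠ 0 := by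
      rintro rfl; exact huv (by unfold br; simp)
    have nz : ∀ {c : ℂ} {z : MN N}, z ≠ 0 → g * z * star g = c • z → c ≠ 0 := by
      intro c z hz hcz hc
      rw [hc, zero_smul] at hcz
      have e1 := conj_trace hg z z
      rw [hcz, star_zero, zero_mul, trace_zero] at e1
      exact hz (eq_zero_of_trace e1.symm)
    have hb0 : b ≠ 0 := nz hv0 hvb
    have ha0 : a ≠ 0 := nz hu0 hua
    refine ⟨k' - k, by omega, ?_⟩
    have h1 : a ^ k = a ^ k' := mul_right_cancel₀ hb0 hkk
    have h2 : a ^ k * a ^ (k' - k) = a ^ k * 1 := by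
      rw [← pow_add, Nat.add_sub_cancel' hlt.le, mul_one, h1]
    exact mul_left_cancel₀ (pow_ne_zero _ ha0) h2
  obtain ⟨a, ha, hla⟩ := hfo hnx hne hxl hym
  obtain ⟨b, hb, hmb⟩ := hfo hny hne' hym hxl
  obtain ⟨k, c, hkc⟩ := exists_pow l m a b ha hb hla hmb
  -- the element `y' = ad(x)^k y`
  obtain ⟨y', hy'⟩ : ∃ y', y' = (br x)^[k] y := ⟨_, rfl⟩
  have hy'W : y' ∈ cplx S hS := by rw [hy']; exact hW hx hy k
  have hy'l : g * y' * star g = (l ^ k * m) • y' := by rw [hy']; exact iter_eig hg hxl hym k
  have hny' := eig_normal hS hg hconj hfix hy'W hy'l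
  have hxy' : br x y' ≠ 0 := by
    have := hit hnx hne (k + 1)
    rwa [Function.iterate_succ_apply', ← hy'] at this
  have hy'x : br y' x ≠ 0 := by
    rw [br_swap]; exact neg_ne_zero.2 hxy'
  have hc1 : g * ((br y')^[c] x) * star g = (br y')^[c] x := by
    rw [iter_eig hg hy'l hxl c, hkc, one_smul]
  have h1 := cplx_fix hS hconj hfix (hW hy'W hx c) hc1 hy'W
  have h2 := hit hny' hy'x (c + 1)
  apply h2
  rw [Function.iterate_succ_apply', br_swap, h1, neg_zero]

include hS hg hconj hfix in
/-- **The commutativity lemma.** -/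
theorem comm_of_fixed : ∀ x ∈ S, ∀ y ∈ S, x * y = y * x := by
  obtain ⟨T, hT⟩ : ∃ T : End ℂ (cplx S hS), ∀ z, ((T z : cplx S hS) : MN N) = g * z * star g :=
    ⟨{ toFun := fun z => ⟨g * z * star g, cplx_conj hS hconj z.2⟩
       map_add' := fun z w => by
        apply Subtype.ext
        show g * ((z : MN N) + w) * star g = g * z * star g + g * w * star g
        rw [mul_add, add_mul]
       map_smul' := fun c z => by
        apply Subtype.ext
        show g * (c • (z : MN N)) * star g = c • (g * z * star g)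
        rw [mul_smul_comm, smul_mul_assoc] }, fun z => rfl⟩
  have htop : (⨆ μ, T.eigenspace μ) = ⊤ := by
    rw [eq_top_iff, ← End.iSup_maxGenEigenspace_eq_top T]
    refine iSup_mono fun μ => ?_
    intro v hv
    rw [End.mem_maxGenEigenspace] at hv
    obtain ⟨k, hk⟩ := hv
    have key : ∀ k : ℕ, ∀ v : cplx S hS, ((T - μ • (1 : End ℂ (cplx S hS))) ^ k) v = 0 →
        (T - μ • (1 : End ℂ (cplx S hS))) v = 0 := by
      intro k
      induction k with
      | zero => intro v hv; simp at hv; rw [hv]; simp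
      | succ k ih =>
        intro v hv
        rw [pow_succ, Module.End.mul_apply] at hv
        have h1 := ih _ hv
        obtain ⟨u, hu⟩ : ∃ u, u = (T - μ • (1 : End ℂ (cplx S hS))) v := ⟨_, rfl⟩
        rw [← hu] at h1 ⊢
        have e1 : T v = μ • v + u := by rw [hu]; simp
        have e2 : T u = μ • u := by
          have : T u - μ • u = 0 := by simpa using h1
          exact sub_eq_zero.1 this
        apply Subtype.ext
        refine gen_two hg (l := μ) (v := (v : MN N)) (u := (u : MN N)) ?_ ?_
        · rw [← hT, e1]; rfl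
        · rw [← hT, e2]; rfl
    rw [End.mem_eigenspace_iff]
    have := key k v hk
    have h3 : T v - μ • v = 0 := by simpa using this
    exact sub_eq_zero.1 h3
  have step : ∀ x y : cplx S hS, br (x : MN N) y = 0 := by
    intro x
    have hx : x ∈ (⨆ μ, T.eigenspace μ) := by rw [htop]; trivial
    refine Submodule.iSup_induction (fun μ => T.eigenspace μ)
      (motive := fun x => ∀ y : cplx S hS, br (x : MN N) y = 0) hx ?_ ?_ ?_
    · intro l x hxl y
      have hy : y ∈ (⨆ μ, T.eigenspace μ) := by rw [htop]; trivial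
      refine Submodule.iSup_induction (fun μ => T.eigenspace μ)
        (motive := fun y => br (x : MN N) y = 0) hy ?_ ?_ ?_
      · intro m y hym
        refine eig_comm hS hg hconj hfix (l := l) (m := m) x.2 ?_ y.2 ?_
        · rw [← hT, End.mem_eigenspace_iff.1 hxl]; rfl
        · rw [← hT, End.mem_eigenspace_iff.1 hym]; rfl
      · unfold br; simp
      · intro y y' h1 h2
        have : br (x : MN N) ((y + y' : cplx S hS) : MN N) = br x y + br x y' := by
          unfold br
          push_cast
          noncomm_ring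
        rw [this, h1, h2, add_zero]
    · intro y; unfold br; simp
    · intro x x' h1 h2 y
      have : br ((x + x' : cplx S hS) : MN N) (y : MN N) = br x y + br x' y := by
        unfold br
        push_cast
        noncomm_ring
      rw [this, h1, h2, add_zero]
  intro x hx y hy
  have := step ⟨x, cplx_of_mem hS hx⟩ ⟨y, cplx_of_mem hS hy⟩
  exact sub_eq_zero.1 this

end main

end Pool.Agent.U682.TIG
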